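import Pool.Agent.Helper446.Comp

/-!
# MP_6b7d8e_lc: exact realisation of conditional prefix-complexity-like functions

There is an admissible `K(x|y)` which is not the complexity function of any prefix-free, nor of any
prefix-stable, conditional algorithm.
-/

namespace Pool.Agent.Results.MP_6b7d8e_lc.NoExact

open Encodable Filter Topology Pool.Agent.Helper446.RE
open scoped ENNReal

/-! ### Definitions -/

/-- Finite binary strings. -/
abbrev Str := List Bool

/-- Conditional algorithms: partial computable functions `U(p, y)`. -/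
def IsAlg (U : Str → Str →. Str) : Prop := Partrec fun q : Str × Str => U q.1 q.2

/-- `C_U(x|y) = min {|p| : U(p,y) = x}` (`⊤` if there is no such `p`). -/
noncomputable def CU (U : Str → Str →. Str) (x y : Str) : ℕ∞ :=
  ⨅ (p : Str) (_ : x ∈ U p y), (p.length : ℕ∞)

/-- Prefix-free: for each `y`, no two different programs, one a prefix of the other, both halt. -/
def PrefixFree (U : Str → Str →. Str) : Prop :=
  ∀ y p p' : Str, p ≠ p' → p <+: p' → ¬ ((U p y).Dom ∧ (U p' y).Dom)

/-- Prefix-stable: `U(p,y) = x` implies `U(p',y) = x` for every extension `p'` of `p`. -/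
def PrefixStable (U : Str → Str →. Str) : Prop :=
  ∀ y p p' x : Str, p <+: p' → x ∈ U p y → x ∈ U p' y

/-- Upper semicomputable: the limit of a uniformly computable non-increasing sequence. -/
def UpperSemicomputable (K : Str → Str → ℕ) : Prop :=
  ∃ Kn : ℕ → Str → Str → ℕ, Computable (fun q : ℕ × Str × Str => Kn q.1 q.2.1 q.2.2) ∧
    (∀ x y, Antitone fun n => Kn n x y) ∧ ∀ x y, Tendsto (fun n => Kn n x y) atTop (𝓝 (K x y))

/-- Admissible: upper semicomputable with `∑_x 2^{-K(x|y)} ≤ 1` for every `y`. -/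
def Admissible (K : Str → Str → ℕ) : Prop :=
  UpperSemicomputable K ∧ ∀ y, ∑' x, (2⁻¹ : ℝ≥0∞) ^ K x y ≤ 1

/-! ### Generalities -/

lemma exists_of_CU {U : Str → Str →. Str} {x y : Str} {n : ℕ} (h : CU U x y = n) :
    ∃ p : Str, x ∈ U p y ∧ p.length = n := by
  by_contra hcon
  push Not at hcon
  have hex : ∃ p : Str, x ∈ U p y := by
    by_contra hn
    push Not at hn
    have : CU U x y = ⊤ := by
      unfold CU
      simp [hn]
    rw [this] at h
    exact absurd h (by simp)
  have h1 : ((n + 1 : ℕ) : ℕ∞) ≤ CU U x y := by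
    unfold CU
    refine le_iInf₂ fun p hp => ?_
    have h2 : (n : ℕ∞) ≤ p.length := by
      rw [← h]
      exact iInf₂_le p hp
    have h3 : n ≤ p.length := by exact_mod_cast h2
    have h4 := hcon p hp
    exact_mod_cast (by omega : n + 1 ≤ p.length)
  rw [h] at h1
  have : n + 1 ≤ n := by exact_mod_cast h1
  omega

/-- The common consequence of prefix-freeness and prefix-stability. -/
lemma incomp {U : Str → Str →. Str} (h : PrefixFree U ∨ PrefixStable U) {x x' y p p' : Str}
    (hx : x ∈ U p y) (hx' : x' ∈ U p' y) (hp : p <+: p') : x = x' := by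
  rcases h with h | h
  · by_cases hpp : p = p'
    · subst hpp
      exact Part.mem_unique hx hx'
    · exact absurd ⟨Part.dom_iff_mem.2 ⟨x, hx⟩, Part.dom_iff_mem.2 ⟨x', hx'⟩⟩ (h y p p' hpp hp)
  · exact Part.mem_unique (h y p p' x hp hx) hx'

/-- The graph of a partial computable function is r.e. -/
lemma re_graph {α β : Type*} [Primcodable α] [Primcodable β] {f : α →. β} (hf : Partrec f) :
    REPred fun q : α × β => q.2 ∈ f q.1 := by
  classical
  have h1 : Partrec fun q : α × β => (f q.1).bind fun b =>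
      ((bif decide (b = q.2) then some () else none : Option Unit) : Part Unit) := by
    refine Partrec.bind (hf.comp Computable.fst) ?_
    refine Computable.ofOption ?_
    refine Computable.cond ?_ (Computable.const _) (Computable.const _)
    have : ComputablePred fun t : (α × β) × β => t.2 = t.1.2 :=
      cp_eq Computable.snd (Computable.snd.comp Computable.fst)
    exact cdecide this
  refine h1.of_eq fun q => ?_
  ext u
  simp only [Part.mem_bind_iff, Part.mem_assert_iff, Part.mem_some_iff]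
  constructor
  · rintro ⟨b, hb, hu⟩
    by_cases hbq : b = q.2
    · subst hbq; exact ⟨hb, trivial⟩
    · simp [hbq] at hu
  · rintro ⟨hq, -⟩
    exact ⟨q.2, hq, by simp⟩

/-- From an r.e. upper graph to a computable non-increasing approximation. -/
lemma upper_of_re {K : Str → Str → ℕ} (b : Str → Str → ℕ)
    (hb : Computable fun q : Str × Str => b q.1 q.2) (hKb : ∀ x y, K x y ≤ b x y)
    (hre : REPred fun q : (Str × Str) × ℕ => K q.1.1 q.1.2 ≤ q.2) : UpperSemicomputable K := by
  obtain ⟨t, ht, hiff⟩ := re_iff.1 hre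
  let st : Str × Str → ℕ × ℕ → ℕ := fun xy na =>
    bif t (xy, na.1.unpair.1) na.1.unpair.2 then min na.2 na.1.unpair.1 else na.2
  have hst : Computable₂ st := by
    have h1 : Computable fun q : (Str × Str) × (ℕ × ℕ) =>
        t (q.1, q.2.1.unpair.1) q.2.1.unpair.2 := by
      refine ht.comp (f := fun p n => t p n)
        (g := fun q : (Str × Str) × (ℕ × ℕ) => (q.1, q.2.1.unpair.1))
        (h := fun q => q.2.1.unpair.2) ?_ ?_ <;> fun_prop
    refine Computable.cond h1 ?_ ?_ <;> fun_prop
  let A : ℕ → Str → Str → ℕ := fun n x y =>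
    Nat.rec (motive := fun _ => ℕ) (b x y) (fun i a => st (x, y) (i, a)) n
  have hA : Computable (fun q : ℕ × Str × Str => A q.1 q.2.1 q.2.2) := by
    refine Computable.nat_rec (f := fun q : ℕ × Str × Str => q.1)
      (g := fun q : ℕ × Str × Str => b q.2.1 q.2.2)
      (h := fun q ia => st (q.2.1, q.2.2) (ia.1, ia.2)) Computable.fst
      (hb.comp Computable.snd) ?_
    refine hst.comp ?_ ?_ <;> fun_prop
  have hsucc : ∀ n x y, A (n + 1) x y =
      bif t ((x, y), n.unpair.1) n.unpair.2 then min (A n x y) n.unpair.1 else A n x y :=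
    fun n x y => rfl
  have hanti : ∀ x y, Antitone fun n => A n x y := by
    intro x y
    refine antitone_nat_of_succ_le fun n => ?_
    rw [hsucc]
    cases t ((x, y), n.unpair.1) n.unpair.2 <;> simp
  have hge : ∀ n x y, K x y ≤ A n x y := by
    intro n x y
    induction n with
    | zero => exact hKb x y
    | succ n ih =>
      rw [hsucc]
      rcases hh : t ((x, y), n.unpair.1) n.unpair.2 with _ | _
      · simpa using ih
      · have : K x y ≤ n.unpair.1 := (hiff ((x, y), n.unpair.1)).2 ⟨_, hh⟩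
        simp [ih, this]
  refine ⟨A, hA, hanti, fun x y => ?_⟩
  obtain ⟨m, hm⟩ := (hiff ((x, y), K x y)).1 le_rfl
  refine tendsto_const_nhds.congr' ?_
  filter_upwards [eventually_ge_atTop (Nat.pair (K x y) m + 1)] with n hn
  refine le_antisymm (hge n x y) ((hanti x y hn).trans ?_)
  change A (Nat.pair (K x y) m + 1) x y ≤ _
  rw [hsucc]
  simp [hm]

/-! ### The combinatorial core -/

/-- Free quarters. -/
def free (h : Fin 4 → Bool × Bool) : Finset (Bool × Bool) := Finset.univ \ Finset.univ.image h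

/-- Items which share their quarter with another item. -/
def shared (h : Fin 4 → Bool × Bool) : Finset (Fin 4) :=
  Finset.univ.filter fun i => ∃ j, j ≠ i ∧ h j = h i

lemma comb_aux : ∀ a b c d : Bool × Bool,
    (¬ (a = b ∧ b = c) ∧ ¬ (a = b ∧ b = d) ∧ ¬ (a = c ∧ c = d) ∧ ¬ (b = c ∧ c = d)) →
    (free ![a, b, c, d]).card = 0 ∨
      ((free ![a, b, c, d]).card < (shared ![a, b, c, d]).card ∧
        (free ![a, b, c, d]).card ≤ 2) := by
  decide +kernel

lemma comb (h : Fin 4 → Bool × Bool)
    (hh : ∀ i j k, i ≠ j → j ≠ k → i ≠ k → ¬ (h i = h j ∧ h j = h k)) :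
    free h = ∅ ∨ ∃ T : Finset (Fin 4), T.card ≤ 3 ∧ (∀ i ∈ T, ∃ j, j ≠ i ∧ h j = h i) ∧
      (free h).card < T.card := by
  have h1 := comb_aux (h 0) (h 1) (h 2) (h 3)
    ⟨hh 0 1 2 (by decide) (by decide) (by decide), hh 0 1 3 (by decide) (by decide) (by decide),
      hh 0 2 3 (by decide) (by decide) (by decide), hh 1 2 3 (by decide) (by decide) (by decide)⟩
  have h2 : ![h 0, h 1, h 2, h 3] = h := by
    ext i <;> fin_cases i <;> rfl
  rw [h2] at h1
  rcases h1 with h1 | ⟨h1, h3⟩
  · exact Or.inl (Finset.card_eq_zero.1 h1)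
  · obtain ⟨T, hT, hc⟩ := Finset.exists_subset_card_eq (s := shared h) (n := (free h).card + 1)
      (by omega)
    refine Or.inr ⟨T, by omega, fun i hi => ?_, by omega⟩
    have := hT hi
    simpa [shared] using this

/-- Positions: eighths given by three bits. -/
abbrev E := Bool × Bool × Bool

abbrev Pos := E × E × E × E

def Pos.get (P : Pos) : Fin 4 → E := ![P.1, P.2.1, P.2.2.1, P.2.2.2]

def E.str (p : E) : Str := [p.1, p.2.1, p.2.2]

def E.qu (p : E) : Bool × Bool := (p.1, p.2.1)

/-- The final requests: `none` for the new item of size `1/4`, `some T` for doubling `T`. -/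
lemma exists_req (P : Pos) : ∃ D : Fin 5 → Bool,
    ((∀ i, D i = true → i = 4) ∨ (D 4 = false ∧ ∃ i : Fin 5, i ≠ 4 ∧ D i = false)) ∧
    (Function.Injective P.get → ∀ q : Fin 5 → Bool × Bool,
      (∀ i, D i = true → ∀ j : Fin 4, (j.castSucc : Fin 5) ≠ i → (P.get j).qu ≠ q i) →
      (∀ i, D i = true → ∀ i', D i' = true → i ≠ i' → q i ≠ q i') → False) := by
  classical
  by_cases hinj : Function.Injective P.get
  swap
  · exact ⟨fun _ => false, Or.inl fun i hi => by simp at hi, fun h => absurd h hinj⟩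
  set h : Fin 4 → Bool × Bool := fun j => (P.get j).qu with hh
  have h3 : ∀ i j k, i ≠ j → j ≠ k → i ≠ k → ¬ (h i = h j ∧ h j = h k) := by
    rintro i j k hij hjk hik ⟨e1, e2⟩
    have f1 : P.get i ≠ P.get j := fun e => hij (hinj e)
    have f2 : P.get j ≠ P.get k := fun e => hjk (hinj e)
    have f3 : P.get i ≠ P.get k := fun e => hik (hinj e)
    simp only [hh, E.qu] at e1 e2
    generalize P.get i = u at *
    generalize P.get j = v at *
    generalize P.get k = w at *
    obtain ⟨a, b, c⟩ := u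
    obtain ⟨a', b', c'⟩ := v
    obtain ⟨a'', b'', c''⟩ := w
    simp only [Prod.mk.injEq] at e1 e2
    obtain ⟨rfl, rfl⟩ := e1
    obtain ⟨rfl, rfl⟩ := e2
    cases c <;> cases c' <;> cases c'' <;> simp_all
  rcases comb h h3 with he | ⟨T, hT3, hTs, hTc⟩
  · refine ⟨fun i => decide (i = 4), Or.inl fun i hi => by simpa using hi, fun _ q hq _ => ?_⟩
    have h4 : q 4 ∉ Finset.univ.image h := by
      intro hm
      obtain ⟨j, -, hj⟩ := Finset.mem_image.1 hm
      exact hq 4 (by simp) j (by
        intro e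
        have := congrArg Fin.val e
        simp at this
        omega) hj
    have h5 : q 4 ∈ free h := by
      rw [free, Finset.mem_sdiff]; exact ⟨Finset.mem_univ _, h4⟩
    rw [he] at h5
    simp at h5
  · refine ⟨fun i => decide (∃ j ∈ T, (j.castSucc : Fin 5) = i), Or.inr ⟨?_, ?_⟩, fun _ q hq hq' => ?_⟩
    · simp only [decide_eq_false_iff_not]
      rintro ⟨j, -, hj⟩
      have := congrArg Fin.val hj
      simp at this
      omega
    · have hT' : T ≠ Finset.univ := by
        rintro rfl
        simp at hT3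
      obtain ⟨j, hj⟩ : ∃ j, j ∉ T := by
        by_contra hcon
        push Not at hcon
        exact hT' (Finset.eq_univ_iff_forall.2 hcon)
      refine ⟨j.castSucc, ?_, ?_⟩
      · intro e
        have := congrArg Fin.val e
        simp at this
        omega
      · simp only [decide_eq_false_iff_not]
        rintro ⟨j', hj', e⟩
        rw [Fin.castSucc_inj] at e
        exact hj (e ▸ hj')
    · have hle : T.card ≤ (free h).card := by
        refine Finset.card_le_card_of_injOn (fun j => q j.castSucc) ?_ ?_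
        · intro i hi
          have hi' : i ∈ T := hi
          rw [Finset.mem_coe, free, Finset.mem_sdiff]
          refine ⟨Finset.mem_univ _, fun hm => ?_⟩
          obtain ⟨j, -, hj⟩ := Finset.mem_image.1 hm
          have hD : (decide (∃ j ∈ T, (j.castSucc : Fin 5) = i.castSucc)) = true := by
            simpa using hi'
          by_cases hji : j = i
          · obtain ⟨j', hj', hj2⟩ := hTs i hi'
            refine hq i.castSucc hD j' (fun e => hj' (Fin.castSucc_inj.1 e)) ?_
            have hj3 : h j = q i.castSucc := hj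
            rw [← hj3, hji]
            exact hj2
          · exact hq i.castSucc hD j (fun e => hji (Fin.castSucc_inj.1 e)) hj
        · intro i hi i' hi' e
          by_contra hne
          refine hq' i.castSucc ?_ i'.castSucc ?_ (fun e' => hne (Fin.castSucc_inj.1 e')) e
          · simpa using hi
          · simpa using hi'
      omega

noncomputable def req (P : Pos) : Fin 5 → Bool := (exists_req P).choose

lemma req_small (P : Pos) : (∀ i, req P i = true → i = 4) ∨
    (req P 4 = false ∧ ∃ i : Fin 5, i ≠ 4 ∧ req P i = false) := (exists_req P).choose_spec.1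

lemma req_spec (P : Pos) (h : Function.Injective P.get) (q : Fin 5 → Bool × Bool)
    (h1 : ∀ i, req P i = true → ∀ j : Fin 4, (j.castSucc : Fin 5) ≠ i → (P.get j).qu ≠ q i)
    (h2 : ∀ i, req P i = true → ∀ i', req P i' = true → i ≠ i' → q i ≠ q i') : False :=
  (exists_req P).choose_spec.2 h q h1 h2

/-! ### The function `K` -/

/-- The five items. -/
def item (i : Fin 5) : Str := List.replicate i true

lemma item_inj : Function.Injective item := by
  intro i j h
  have := congrArg List.length h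
  simp only [item, List.length_replicate] at this
  exact Fin.ext this

/-- The universal r.e. relation. -/
def W (e : ℕ) (t : (Str × Str) × Str) : Prop := ∃ s, wst ((Str × Str) × Str) e s t = true

/-- All four items have been given programs of length three. -/
def R (y : Str) (P : Pos) : Prop :=
  W y.length (((P.1).str, y), item 0) ∧ W y.length (((P.2.1).str, y), item 1) ∧
  W y.length (((P.2.2.1).str, y), item 2) ∧ W y.length (((P.2.2.2).str, y), item 3)

lemma R_re : REPred fun q : Str × Pos => R q.1 q.2 := by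
  have hW : ∀ (g : Pos → E) (_ : Computable g) (x : Str), REPred fun q : Str × Pos =>
      W q.1.length (((g q.2).str, q.1), x) := by
    intro g hg x
    refine exN (p := fun (q : Str × Pos) s =>
      wst ((Str × Str) × Str) q.1.length s (((g q.2).str, q.1), x) = true) (of_bool ?_)
    have hstr : Computable E.str := (Primrec.dom_finite _).to_comp
    refine wst_comp.comp (f := fun p : (ℕ × ℕ) × ((Str × Str) × Str) =>
        wst ((Str × Str) × Str) p.1.1 p.1.2 p.2)
      (g := fun x' : (Str × Pos) × ℕ => ((x'.1.1.length, x'.2), (((g x'.1.2).str, x'.1.1), x))) ?_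
    have h1 : Computable fun x' : (Str × Pos) × ℕ => (g x'.1.2).str :=
      hstr.comp (hg.comp (by fun_prop))
    fun_prop
  exact and (hW (fun P => P.1) (by fun_prop) _) (and (hW (fun P => P.2.1) (by fun_prop) _)
    (and (hW (fun P => P.2.2.1) (by fun_prop) _) (hW (fun P => P.2.2.2) (by fun_prop) _)))

/-- The initial weights. -/
def base (x : Str) : ℕ := if x ∈ [item 0, item 1, item 2, item 3] then 3 else encode x + 9

lemma base_comp : Computable base := by
  refine cite ?_ (cconst 3) ?_
  · exact cp_mem (by fun_prop) (by fun_prop)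
  · fun_prop

lemma base_ge (x : Str) : 2 ≤ base x := by
  unfold base; split_ifs <;> omega

/-- The final value, given the (partial) selector `f`. -/
def Big (f : Str →. Pos) (x y : Str) : Prop := ∃ P, P ∈ f y ∧ ∃ i, req P i = true ∧ x = item i

open Classical in
noncomputable def KK (f : Str →. Pos) (x y : Str) : ℕ := if Big f x y then 2 else base x

lemma Big_re {f : Str →. Pos} (hf : Partrec f) : REPred fun q : Str × Str => Big f q.1 q.2 := by
  refine ex (p := fun (q : Str × Str) P => P ∈ f q.2 ∧ ∃ i, req P i = true ∧ q.1 = item i) ?_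
  refine and ?_ ?_
  · exact comp (re_graph hf) (f := fun x : (Str × Str) × Pos => (x.1.2, x.2)) (by fun_prop)
  · refine ex (p := fun (t : (Str × Str) × Pos) i => req t.2 i = true ∧ t.1.1 = item i) ?_
    have h1 : Computable fun q : Pos × Fin 5 => req q.1 q.2 := (Primrec.dom_finite _).to_comp
    have h2 : Computable item := (Primrec.dom_finite _).to_comp
    refine and (of_bool ?_) (eq ?_ ?_)
    · exact h1.comp (g := fun x : ((Str × Str) × Pos) × Fin 5 => (x.1.2, x.2)) (by fun_prop)
    · fun_prop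
    · exact h2.comp (by fun_prop)

lemma KK_upper {f : Str →. Pos} (hf : Partrec f) : UpperSemicomputable (KK f) := by
  refine upper_of_re (fun x _ => base x) (base_comp.comp Computable.fst) ?_ ?_
  · intro x y
    unfold KK
    split_ifs
    · exact base_ge x
    · exact le_rfl
  · have h1 : REPred fun q : (Str × Str) × ℕ => base q.1.1 ≤ q.2 ∨
        (Big f q.1.1 q.1.2 ∧ 2 ≤ q.2) := by
      refine or (le (base_comp.comp (by fun_prop)) (by fun_prop)) (and ?_ (le ?_ ?_))
      · exact comp (Big_re hf) (f := fun x : (Str × Str) × ℕ => x.1) (by fun_prop)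
      · fun_prop
      · fun_prop
    refine h1.of_eq fun q => ?_
    unfold KK
    constructor
    · rintro (h | ⟨h, h'⟩)
      · split_ifs
        · exact (base_ge _).trans h
        · exact h
      · rw [if_pos h]; exact h'
    · intro h
      by_cases hB : Big f q.1.1 q.1.2
      · rw [if_pos hB] at h; exact Or.inr ⟨hB, h⟩
      · rw [if_neg hB] at h; exact Or.inl h

lemma tail_sum : ∑' x : Str, (2⁻¹ : ℝ≥0∞) ^ (encode x + 9) ≤ 2⁻¹ ^ 8 := by
  calc ∑' x : Str, (2⁻¹ : ℝ≥0∞) ^ (encode x + 9) ≤ ∑' n : ℕ, (2⁻¹ : ℝ≥0∞) ^ (n + 9) :=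
        ENNReal.tsum_comp_le_tsum_of_injective (f := fun x : Str => encode x)
          Encodable.encode_injective (fun n => (2⁻¹ : ℝ≥0∞) ^ (n + 9))
    _ = 2⁻¹ ^ 8 := by
        simp_rw [pow_add]
        rw [ENNReal.tsum_mul_right, ENNReal.tsum_geometric, ENNReal.one_sub_inv_two, inv_inv,
          show (9 : ℕ) = 8 + 1 from rfl, pow_succ, ← mul_assoc, mul_comm (2 : ℝ≥0∞), mul_assoc,
          ENNReal.mul_inv_cancel (by norm_num) (by norm_num), mul_one]

/-- Weights of the items. -/
noncomputable def wt (D : Fin 5 → Bool) (i : Fin 5) : ℝ≥0∞ :=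
  if D i = true then 2⁻¹ ^ 2 else if i = 4 then 0 else 2⁻¹ ^ 3

lemma wt_sum (D : Fin 5 → Bool)
    (hD : (∀ i, D i = true → i = 4) ∨ (D 4 = false ∧ ∃ i : Fin 5, i ≠ 4 ∧ D i = false)) :
    ∑ i, wt D i ≤ 7 * 2⁻¹ ^ 3 := by
  have h4 : (2⁻¹ : ℝ≥0∞) ^ 2 = 2 * 2⁻¹ ^ 3 := by
    rw [pow_succ, pow_succ 2⁻¹ 2, mul_comm (2 : ℝ≥0∞), mul_assoc,
      ENNReal.inv_mul_cancel (by norm_num) (by norm_num), mul_one, ← pow_succ]
  have hle : ∀ i, wt D i ≤ 2 * 2⁻¹ ^ 3 := by
    intro i
    unfold wt
    split_ifs
    · exact h4.le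
    · exact bot_le
    · exact le_mul_of_one_le_left bot_le (by norm_num)
  rw [Fin.sum_univ_five]
  rcases hD with hD | ⟨hD, i, hi, hi'⟩
  · have h : ∀ i : Fin 5, i ≠ 4 → wt D i = 2⁻¹ ^ 3 := by
      intro i hi
      unfold wt
      rw [if_neg (fun h => hi (hD i h)), if_neg hi]
    rw [h 0 (by decide), h 1 (by decide), h 2 (by decide), h 3 (by decide)]
    calc _ ≤ (2⁻¹ : ℝ≥0∞) ^ 3 + 2⁻¹ ^ 3 + 2⁻¹ ^ 3 + 2⁻¹ ^ 3 + 2 * 2⁻¹ ^ 3 := by gcongr; exact hle 4
      _ = 6 * 2⁻¹ ^ 3 := by ring
      _ ≤ 7 * 2⁻¹ ^ 3 := by gcongr; norm_num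
  · have h0 : wt D 4 = 0 := by
      unfold wt; rw [if_neg (by simp [hD]), if_pos rfl]
    have h1 : wt D i = 2⁻¹ ^ 3 := by
      unfold wt; rw [if_neg (by simp [hi']), if_neg hi]
    rw [h0, add_zero]
    fin_cases i
    · simp only [Fin.zero_eta] at h1
      rw [h1]
      calc _ ≤ (2⁻¹ : ℝ≥0∞) ^ 3 + 2 * 2⁻¹ ^ 3 + 2 * 2⁻¹ ^ 3 + 2 * 2⁻¹ ^ 3 := by
            gcongr <;> exact hle _
        _ = 7 * 2⁻¹ ^ 3 := by ring
    · simp only [Fin.mk_one] at h1
      rw [h1]
      calc _ ≤ 2 * 2⁻¹ ^ 3 + (2⁻¹ : ℝ≥0∞) ^ 3 + 2 * 2⁻¹ ^ 3 + 2 * 2⁻¹ ^ 3 := by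
            gcongr <;> exact hle _
        _ = 7 * 2⁻¹ ^ 3 := by ring
    · simp only [Fin.reduceFinMk] at h1
      rw [h1]
      calc _ ≤ 2 * 2⁻¹ ^ 3 + 2 * 2⁻¹ ^ 3 + (2⁻¹ : ℝ≥0∞) ^ 3 + 2 * 2⁻¹ ^ 3 := by
            gcongr <;> exact hle _
        _ = 7 * 2⁻¹ ^ 3 := by ring
    · simp only [Fin.reduceFinMk] at h1
      rw [h1]
      calc _ ≤ 2 * 2⁻¹ ^ 3 + 2 * 2⁻¹ ^ 3 + 2 * 2⁻¹ ^ 3 + (2⁻¹ : ℝ≥0∞) ^ 3 := by
            gcongr <;> exact hle _
        _ = 7 * 2⁻¹ ^ 3 := by ring
    · exact absurd rfl hi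

lemma KK_sum (f : Str →. Pos) (y : Str) : ∑' x, (2⁻¹ : ℝ≥0∞) ^ KK f x y ≤ 1 := by
  classical
  obtain ⟨D, hD, hDr⟩ : ∃ D : Fin 5 → Bool,
      ((∀ i, D i = true → i = 4) ∨ (D 4 = false ∧ ∃ i : Fin 5, i ≠ 4 ∧ D i = false)) ∧
      ∀ x, Big f x y → ∃ i, D i = true ∧ x = item i := by
    by_cases h : ∃ P, P ∈ f y
    · obtain ⟨P, hP⟩ := h
      refine ⟨req P, req_small P, ?_⟩
      rintro x ⟨P', hP', h⟩
      rw [Part.mem_unique hP' hP] at h
      exact h
    · refine ⟨fun _ => false, Or.inl fun i hi => by simp at hi, ?_⟩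
      rintro x ⟨P, hP, -⟩
      exact absurd ⟨P, hP⟩ h
  have hpt : ∀ x, (2⁻¹ : ℝ≥0∞) ^ KK f x y ≤
      (∑ i, if x = item i then wt D i else 0) + 2⁻¹ ^ (encode x + 9) := by
    intro x
    by_cases hB : Big f x y
    · obtain ⟨i, hi, rfl⟩ := hDr x hB
      unfold KK
      rw [if_pos hB]
      refine le_add_right ?_
      refine le_trans ?_ (Finset.single_le_sum (f := fun j => if item i = item j then wt D j else 0)
        (fun _ _ => bot_le) (Finset.mem_univ i))
      simp [wt, hi]
    · unfold KK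
      rw [if_neg hB]
      unfold base
      split_ifs with hm
      · obtain ⟨i, hi4, rfl⟩ : ∃ i : Fin 5, i ≠ 4 ∧ x = item i := by
          simp only [List.mem_cons, List.not_mem_nil, or_false] at hm
          rcases hm with h | h | h | h
          · exact ⟨0, by decide, h⟩
          · exact ⟨1, by decide, h⟩
          · exact ⟨2, by decide, h⟩
          · exact ⟨3, by decide, h⟩
        refine le_add_right ?_
        refine le_trans ?_ (Finset.single_le_sum
          (f := fun j => if item i = item j then wt D j else 0)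
          (fun _ _ => bot_le) (Finset.mem_univ i))
        simp only [if_true, wt, if_neg hi4]
        split_ifs
        · exact pow_le_pow_right_of_le_one' (by norm_num) (by norm_num)
        · exact le_rfl
      · exact le_add_left le_rfl
  calc ∑' x, (2⁻¹ : ℝ≥0∞) ^ KK f x y
      ≤ ∑' x, ((∑ i, if x = item i then wt D i else 0) + 2⁻¹ ^ (encode x + 9)) :=
        ENNReal.tsum_le_tsum hpt
    _ = (∑' x, ∑ i, if x = item i then wt D i else 0) + ∑' x : Str, 2⁻¹ ^ (encode x + 9) :=
        ENNReal.tsum_add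
    _ = (∑ i, wt D i) + ∑' x : Str, 2⁻¹ ^ (encode x + 9) := by
        congr 1
        rw [Summable.tsum_finsetSum (fun _ _ => ENNReal.summable)]
        simp
    _ ≤ 7 * 2⁻¹ ^ 3 + 2⁻¹ ^ 8 := add_le_add (wt_sum D hD) tail_sum
    _ ≤ 7 * 2⁻¹ ^ 3 + 2⁻¹ ^ 3 := by
        gcongr 1
        exact pow_le_pow_right_of_le_one' (by norm_num) (by norm_num)
    _ = 8 * 2⁻¹ ^ 3 := by ring
    _ = 1 := by
        rw [show (8 : ℝ≥0∞) = 2 ^ 3 by norm_num, ← mul_pow,
          ENNReal.mul_inv_cancel (by norm_num) (by norm_num), one_pow]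

/-- **Theorem.** Some admissible `K` differs from `C_U` for every prefix-free and every
prefix-stable conditional algorithm `U`. -/
theorem result : ∃ K : Str → Str → ℕ, Admissible K ∧
    ∀ U : Str → Str →. Str, IsAlg U → (PrefixFree U ∨ PrefixStable U) →
      ¬ ∀ x y : Str, CU U x y = (K x y : ℕ∞) := by
  classical
  obtain ⟨f, hf, hdom, hR⟩ := uniformize (r := R) R_re
  refine ⟨KK f, ⟨KK_upper hf, KK_sum f⟩, ?_⟩
  intro U hU hpre hK
  obtain ⟨e, he⟩ := wst_univ (re_graph hU)
  have heW : ∀ p y x, x ∈ U p y ↔ W e ((p, y), x) := fun p y x => he ((p, y), x)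
  set y : Str := List.replicate e true with hy
  have hlen : y.length = e := by simp [hy]
  have hKy : ∀ x, CU U x y = (KK f x y : ℕ∞) := fun x => hK x y
  -- the selector is defined at `y`
  have hfy : (f y).Dom := by
    by_contra hnd
    have hnB : ∀ x, ¬ Big f x y := by
      rintro x ⟨P, hP, -⟩
      exact hnd (Part.dom_iff_mem.2 ⟨P, hP⟩)
    have h3 : ∀ i : Fin 5, i ≠ 4 → ∃ p : E, W e ((p.str, y), item i) := by
      intro i hi
      have h1 : CU U (item i) y = ((3 : ℕ) : ℕ∞) := by
        rw [hKy, KK, if_neg (hnB _)]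
        have : base (item i) = 3 := by
          unfold base
          rw [if_pos]
          fin_cases i <;> simp at hi ⊢
        rw [this]
      obtain ⟨p, hp, hpl⟩ := exists_of_CU h1
      obtain ⟨a, b, c, rfl⟩ := List.length_eq_three.1 hpl
      exact ⟨(a, b, c), (heW _ _ _).1 hp⟩
    obtain ⟨p0, h0⟩ := h3 0 (by decide)
    obtain ⟨p1, h1⟩ := h3 1 (by decide)
    obtain ⟨p2, h2⟩ := h3 2 (by decide)
    obtain ⟨p3, h3⟩ := h3 3 (by decide)
    refine hnd ((hdom y).2 ⟨(p0, p1, p2, p3), ?_⟩)
    unfold R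
    rw [hlen]
    exact ⟨h0, h1, h2, h3⟩
  obtain ⟨P, hP⟩ := Part.dom_iff_mem.1 hfy
  have hRP := hR y P hP
  have hget : ∀ j : Fin 4, item j.castSucc ∈ U (P.get j).str y := by
    unfold R at hRP
    rw [hlen] at hRP
    obtain ⟨h0, h1, h2, h3⟩ := hRP
    intro j
    rw [heW]
    fin_cases j
    · exact h0
    · exact h1
    · exact h2
    · exact h3
  have hinj : Function.Injective P.get := by
    intro i j hij
    have h1 := hget i
    rw [hij] at h1
    exact Fin.castSucc_inj.1 (item_inj (Part.mem_unique h1 (hget j)))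
  -- programs of length two for the requested items
  have hq : ∀ i : Fin 5, ∃ q : Bool × Bool, req P i = true → item i ∈ U [q.1, q.2] y := by
    intro i
    by_cases hi : req P i = true
    · have h1 : CU U (item i) y = ((2 : ℕ) : ℕ∞) := by
        rw [hKy, KK, if_pos ⟨P, hP, i, hi, rfl⟩]
      obtain ⟨p, hp, hpl⟩ := exists_of_CU h1
      obtain ⟨a, b, rfl⟩ := List.length_eq_two.1 hpl
      exact ⟨(a, b), fun _ => hp⟩
    · exact ⟨(true, true), fun h => absurd h hi⟩
  choose q hq using hq
  refine req_spec P hinj q ?_ ?_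
  · intro i hi j hji heq
    have h1 := hq i hi
    have h2 := hget j
    have h3 : [(q i).1, (q i).2] <+: (P.get j).str := by
      rw [← heq]
      exact ⟨[(P.get j).2.2], rfl⟩
    exact hji (item_inj (incomp hpre h1 h2 h3)).symm
  · intro i hi i' hi' hne heq
    have h1 := hq i hi
    have h2 := hq i' hi'
    rw [← heq] at h2
    exact hne (item_inj (Part.mem_unique h1 h2))

end Pool.Agent.Results.MP_6b7d8e_lc.NoExact
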